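import Mathlib

/-!
# Iterated bivariate Lorenz curves: a law with a density for which the conclusion fails
-/

open MeasureTheory Set Filter Topology

namespace Pool.Agent.Results.MP_357d86_pr.BlockDensity

/-- First marginal distribution function of a law on the plane. -/
noncomputable def F1 (ν : Measure (ℝ × ℝ)) (x : ℝ) : ℝ := ν.real {p | p.1 ≤ x}

/-- Second marginal distribution function of a law on the plane. -/
noncomputable def F2 (ν : Measure (ℝ × ℝ)) (x : ℝ) : ℝ := ν.real {p | p.2 ≤ x}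

/-- Generalized inverse `inf {y : F y ≥ u}`, with values in `[-∞, ∞]`. -/
noncomputable def ginv (F : ℝ → ℝ) (u : ℝ) : EReal :=
  sInf ((fun y : ℝ => (y : EReal)) '' {y | u ≤ F y})

/-- The bivariate Lorenz curve of the law `ν`. -/
noncomputable def lorenz (ν : Measure (ℝ × ℝ)) (x : ℝ × ℝ) : ℝ :=
  (∫ u in {u : ℝ × ℝ | (u.1 : EReal) ≤ ginv (F1 ν) x.1 ∧ (u.2 : EReal) ≤ ginv (F2 ν) x.2},
      u.1 * u.2 ∂ν) / ∫ u, u.1 * u.2 ∂ν

/-- distribution function of a coordinate -/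
noncomputable def G (ν : Measure (ℝ × ℝ)) (g : ℝ × ℝ → ℝ) (x : ℝ) : ℝ := ν.real {p | g p ≤ x}

theorem G_mono (ν : Measure (ℝ × ℝ)) [IsFiniteMeasure ν] (g : ℝ × ℝ → ℝ) : Monotone (G ν g) := by
  intro a b hab
  exact measureReal_mono (fun p (hp : g p ≤ a) => le_trans hp hab)

theorem G_cont (ν : Measure (ℝ × ℝ)) [IsFiniteMeasure ν] {g : ℝ × ℝ → ℝ} (hg : Measurable g)
    (h0 : ∀ t, ν {p | g p = t} = 0) : Continuous (G ν g) := by
  have hG : G ν g = fun x => ∫ p, (if g p ≤ x then (1 : ℝ) else 0) ∂ν := by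
    funext x
    have hm : MeasurableSet {p | g p ≤ x} := hg measurableSet_Iic
    have := integral_indicator_one (μ := ν) hm
    rw [G, ← this]
    congr 1
  rw [hG, continuous_iff_continuousAt]
  intro x0
  refine continuousAt_of_dominated (bound := fun _ => (1 : ℝ)) ?_ ?_ (integrable_const _) ?_
  · refine Eventually.of_forall fun x => ?_
    exact (Measurable.ite (hg measurableSet_Iic) measurable_const measurable_const).aestronglyMeasurable
  · refine Eventually.of_forall fun x => Eventually.of_forall fun p => ?_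
    by_cases h : g p ≤ x <;> simp [h]
  · have : ∀ᵐ p ∂ν, g p ≠ x0 := by
      rw [ae_iff]
      simpa using h0 x0
    filter_upwards [this] with p hp
    rcases lt_or_gt_of_ne hp with h | h
    · have : (fun x => if g p ≤ x then (1 : ℝ) else 0) =ᶠ[𝓝 x0] fun _ => 1 := by
        filter_upwards [lt_mem_nhds h] with x hx
        rw [if_pos (le_of_lt hx)]
      exact (continuousAt_const).congr this.symm
    · have : (fun x => if g p ≤ x then (1 : ℝ) else 0) =ᶠ[𝓝 x0] fun _ => 0 := by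
        filter_upwards [gt_mem_nhds h] with x hx
        rw [if_neg (not_le.2 hx)]
      exact (continuousAt_const).congr this.symm

theorem G_sub (ν : Measure (ℝ × ℝ)) [IsFiniteMeasure ν] {g : ℝ × ℝ → ℝ} (hg : Measurable g)
    {a b : ℝ} (hab : a ≤ b) : ν.real {p | a < g p ∧ g p ≤ b} = G ν g b - G ν g a := by
  have h1 : {p | g p ≤ b} = {p | g p ≤ a} ∪ {p | a < g p ∧ g p ≤ b} := by
    ext p
    simp only [mem_ofPred_eq, mem_union]
    constructor
    · intro h
      rcases le_or_gt (g p) a with h' | h'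
      · exact Or.inl h'
      · exact Or.inr ⟨h', h⟩
    · rintro (h | h)
      · exact h.trans hab
      · exact h.2
  have h2 : Disjoint {p | g p ≤ a} {p | a < g p ∧ g p ≤ b} := by
    rw [Set.disjoint_left]
    rintro p (hp : g p ≤ a) ⟨h, -⟩
    exact absurd hp (not_le.2 h)
  have h3 : MeasurableSet {p | a < g p ∧ g p ≤ b} := hg measurableSet_Ioc
  rw [G, G, h1, measureReal_union h2 h3]
  ring

/-- The law of `G (g)` has no atoms. -/
theorem G_level (ν : Measure (ℝ × ℝ)) [IsFiniteMeasure ν] {g : ℝ × ℝ → ℝ} (hg : Measurable g)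
    (h0 : ∀ t, ν {p | g p = t} = 0) (h1 : ∀ᵐ p ∂ν, g p ∈ Icc (0 : ℝ) 1) (t : ℝ) :
    ν {p | G ν g (g p) = t} = 0 := by
  have hc := G_cont ν hg h0
  set S : Set ℝ := Icc (0 : ℝ) 1 ∩ (G ν g) ⁻¹' {t} with hS
  have hScomp : IsCompact S := isCompact_Icc.inter_right ((isClosed_singleton).preimage hc)
  have hnull : ν {p | ¬ g p ∈ Icc (0 : ℝ) 1} = 0 := by
    rw [ae_iff] at h1
    exact h1
  rcases S.eq_empty_or_nonempty with he | hne
  · refine measure_mono_null (fun p hp => ?_) hnull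
    intro h
    have : g p ∈ S := ⟨h, hp⟩
    rw [he] at this
    exact this
  · obtain ⟨a, haS, ha⟩ := hScomp.exists_isMinOn hne continuous_id.continuousOn
    obtain ⟨b, hbS, hb⟩ := hScomp.exists_isMaxOn hne continuous_id.continuousOn
    have hab : a ≤ b := ha hbS
    have hG : ν.real {p | a < g p ∧ g p ≤ b} = 0 := by
      rw [G_sub ν hg hab]
      have h2 : G ν g a = t := haS.2
      have h3 : G ν g b = t := hbS.2
      rw [h2, h3, sub_self]
    have hG' : ν {p | a < g p ∧ g p ≤ b} = 0 := by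
      rwa [measureReal_eq_zero_iff] at hG
    have hu : ν ({p | ¬ g p ∈ Icc (0 : ℝ) 1} ∪ ({p | g p = a} ∪ {p | a < g p ∧ g p ≤ b})) = 0 := by
      rw [measure_union_null_iff, measure_union_null_iff]
      exact ⟨hnull, h0 a, hG'⟩
    refine measure_mono_null (fun p hp => ?_) hu
    by_cases h : g p ∈ Icc (0 : ℝ) 1
    · have hpS : g p ∈ S := ⟨h, hp⟩
      have h4 : a ≤ g p := ha hpS
      have h5 : g p ≤ b := hb hpS
      right
      rcases eq_or_lt_of_le h4 with h6 | h6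
      · exact Or.inl h6.symm
      · exact Or.inr ⟨h6, h5⟩
    · exact Or.inl h

theorem ginv_iff (ν : Measure (ℝ × ℝ)) [IsFiniteMeasure ν] {g : ℝ × ℝ → ℝ} (hg : Measurable g)
    (h0 : ∀ t, ν {p | g p = t} = 0) (h1 : ∀ᵐ p ∂ν, g p ∈ Icc (0 : ℝ) 1) (x : ℝ) :
    ∀ᵐ p ∂ν, ((g p : EReal) ≤ ginv (G ν g) x ↔ G ν g (g p) ≤ x) := by
  have hc := G_cont ν hg h0
  have hne : ∀ᵐ p ∂ν, G ν g (g p) ≠ x := by
    rw [ae_iff]
    simpa using G_level ν hg h0 h1 x
  filter_upwards [hne] with p hp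
  constructor
  · intro h
    by_contra hlt
    rw [not_le] at hlt
    have h2 : ∀ᶠ y in 𝓝 (g p), x < G ν g y := hc.continuousAt.eventually (lt_mem_nhds hlt)
    have h3 : ∀ᶠ y in 𝓝[<] (g p), x < G ν g y := h2.filter_mono nhdsWithin_le_nhds
    obtain ⟨y, hy1, hy2⟩ := (h3.and self_mem_nhdsWithin).exists
    have h4 : ginv (G ν g) x ≤ (y : EReal) := sInf_le ⟨y, hy1.le, rfl⟩
    have h5 : (g p : EReal) ≤ (y : EReal) := h.trans h4
    rw [EReal.coe_le_coe_iff] at h5
    exact absurd h5 (not_le.2 hy2)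
  · intro h
    have hlt : G ν g (g p) < x := lt_of_le_of_ne h hp
    refine le_sInf ?_
    rintro _ ⟨y, hy, rfl⟩
    have hy' : x ≤ G ν g y := hy
    show (g p : EReal) ≤ (y : EReal)
    rw [EReal.coe_le_coe_iff]
    by_contra h6
    rw [not_le] at h6
    have := G_mono ν g h6.le
    linarith

/-- Laws on the unit square without atoms in either marginal. -/
structure Good (ν : Measure (ℝ × ℝ)) : Prop where
  prob : IsProbabilityMeasure ν
  box1 : ∀ᵐ p ∂ν, p.1 ∈ Icc (0 : ℝ) 1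
  box2 : ∀ᵐ p ∂ν, p.2 ∈ Icc (0 : ℝ) 1
  at1 : ∀ t, ν {p | p.1 = t} = 0
  at2 : ∀ t, ν {p | p.2 = t} = 0

theorem Good.int {ν : Measure (ℝ × ℝ)} (h : Good ν) :
    Integrable (fun p : ℝ × ℝ => p.1 * p.2) ν := by
  have := h.prob
  refine Integrable.mono' (g := fun _ => (1 : ℝ)) (integrable_const _)
    (measurable_fst.mul measurable_snd).aestronglyMeasurable ?_
  filter_upwards [h.box1, h.box2] with p h1 h2
  rw [Real.norm_of_nonneg (mul_nonneg h1.1 h2.1)]
  exact mul_le_one₀ h1.2 h2.1 h2.2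

theorem Good.int1 {ν : Measure (ℝ × ℝ)} (h : Good ν) :
    Integrable (fun p : ℝ × ℝ => p.1) ν := by
  have := h.prob
  refine Integrable.mono' (g := fun _ => (1 : ℝ)) (integrable_const _)
    (measurable_fst).aestronglyMeasurable ?_
  filter_upwards [h.box1] with p h1
  rw [Real.norm_of_nonneg h1.1]
  exact h1.2

theorem Good.int2 {ν : Measure (ℝ × ℝ)} (h : Good ν) :
    Integrable (fun p : ℝ × ℝ => p.2) ν := by
  have := h.prob
  refine Integrable.mono' (g := fun _ => (1 : ℝ)) (integrable_const _)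
    (measurable_snd).aestronglyMeasurable ?_
  filter_upwards [h.box2] with p h1
  rw [Real.norm_of_nonneg h1.1]
  exact h1.2

theorem Good.pos1 {ν : Measure (ℝ × ℝ)} (h : Good ν) : ∀ᵐ p ∂ν, 0 < p.1 := by
  have h0 : ∀ᵐ p ∂ν, p.1 ≠ 0 := by
    rw [ae_iff]
    simpa using h.at1 0
  filter_upwards [h.box1, h0] with p h1 h2
  exact lt_of_le_of_ne h1.1 (Ne.symm h2)

theorem Good.pos2 {ν : Measure (ℝ × ℝ)} (h : Good ν) : ∀ᵐ p ∂ν, 0 < p.2 := by
  have h0 : ∀ᵐ p ∂ν, p.2 ≠ 0 := by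
    rw [ae_iff]
    simpa using h.at2 0
  filter_upwards [h.box2, h0] with p h1 h2
  exact lt_of_le_of_ne h1.1 (Ne.symm h2)

theorem integral_pos_of_ae_pos {ν : Measure (ℝ × ℝ)} [IsProbabilityMeasure ν] {f : ℝ × ℝ → ℝ}
    (hf : Integrable f ν) (hp : ∀ᵐ p ∂ν, 0 < f p) : 0 < ∫ p, f p ∂ν := by
  rw [integral_pos_iff_support_of_nonneg_ae (hp.mono fun p h => h.le) hf]
  have : ν (Function.support f)ᶜ = 0 := by
    refine measure_mono_null ?_ (ae_iff.1 hp)
    intro p hp'
    simp only [mem_compl_iff, Function.mem_support, not_not] at hp'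
    simp [hp']
  by_contra hcon
  have h0 : ν (Function.support f) = 0 := by
    simpa using hcon
  have h1 : ν univ = 0 := by
    rw [← union_compl_self (Function.support f)]
    exact measure_union_null h0 this
  rw [measure_univ] at h1
  exact one_ne_zero h1

theorem Good.mass {ν : Measure (ℝ × ℝ)} (h : Good ν) : 0 < ∫ p, p.1 * p.2 ∂ν := by
  have := h.prob
  refine integral_pos_of_ae_pos h.int ?_
  filter_upwards [h.pos1, h.pos2] with p h1 h2
  exact mul_pos h1 h2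

/-- the tilted law -/
noncomputable def tilt (ν : Measure (ℝ × ℝ)) : Measure (ℝ × ℝ) :=
  ν.withDensity (fun p => ENNReal.ofReal (p.1 * p.2 / ∫ u, u.1 * u.2 ∂ν))

/-- the next law -/
noncomputable def next (ν : Measure (ℝ × ℝ)) : Measure (ℝ × ℝ) :=
  (tilt ν).map (fun p => (F1 ν p.1, F2 ν p.2))

theorem tilt_apply {ν : Measure (ℝ × ℝ)} (h : Good ν) {A : Set (ℝ × ℝ)} (hA : MeasurableSet A) :
    tilt ν A = ENNReal.ofReal ((∫ p in A, p.1 * p.2 ∂ν) / ∫ u, u.1 * u.2 ∂ν) := by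
  have := h.prob
  have hm := h.mass
  rw [tilt, withDensity_apply _ hA, ← integral_div]
  rw [ofReal_integral_eq_lintegral_ofReal]
  · exact (h.int.div_const _).restrict
  · refine ae_restrict_of_ae ?_
    filter_upwards [h.pos1, h.pos2] with p h1 h2
    positivity

theorem tilt_real {ν : Measure (ℝ × ℝ)} (h : Good ν) {A : Set (ℝ × ℝ)} (hA : MeasurableSet A) :
    (tilt ν).real A = (∫ p in A, p.1 * p.2 ∂ν) / ∫ u, u.1 * u.2 ∂ν := by
  have := h.prob
  rw [Measure.real, tilt_apply h hA, ENNReal.toReal_ofReal]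
  refine div_nonneg ?_ h.mass.le
  refine integral_nonneg_of_ae (ae_restrict_of_ae ?_)
  filter_upwards [h.pos1, h.pos2] with p h1 h2
  exact (mul_pos h1 h2).le

theorem tilt_ac (ν : Measure (ℝ × ℝ)) : tilt ν ≪ ν := withDensity_absolutelyContinuous _ _

theorem tilt_prob {ν : Measure (ℝ × ℝ)} (h : Good ν) : IsProbabilityMeasure (tilt ν) := by
  refine ⟨?_⟩
  rw [tilt_apply h MeasurableSet.univ, setIntegral_univ, div_self h.mass.ne', ENNReal.ofReal_one]

theorem F1_eq (ν : Measure (ℝ × ℝ)) : F1 ν = G ν Prod.fst := rfl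

theorem F2_eq (ν : Measure (ℝ × ℝ)) : F2 ν = G ν Prod.snd := rfl

theorem F1_cont {ν : Measure (ℝ × ℝ)} (h : Good ν) : Continuous (F1 ν) := by
  have := h.prob
  exact G_cont ν measurable_fst h.at1

theorem F2_cont {ν : Measure (ℝ × ℝ)} (h : Good ν) : Continuous (F2 ν) := by
  have := h.prob
  exact G_cont ν measurable_snd h.at2

theorem map_meas {ν : Measure (ℝ × ℝ)} (h : Good ν) :
    Measurable (fun p : ℝ × ℝ => (F1 ν p.1, F2 ν p.2)) :=
  ((F1_cont h).measurable.comp measurable_fst).prodMk ((F2_cont h).measurable.comp measurable_snd)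

theorem next_ae {ν : Measure (ℝ × ℝ)} (h : Good ν) {P : ℝ × ℝ → Prop} (hP : MeasurableSet {p | P p})
    (hae : ∀ᵐ p ∂ν, P (F1 ν p.1, F2 ν p.2)) : ∀ᵐ p ∂(next ν), P p := by
  rw [next, ae_map_iff (map_meas h).aemeasurable hP]
  exact (tilt_ac ν).ae_le hae

theorem next_good {ν : Measure (ℝ × ℝ)} (h : Good ν) : Good (next ν) := by
  have := h.prob
  have := tilt_prob h
  refine ⟨Measure.isProbabilityMeasure_map (map_meas h).aemeasurable, ?_, ?_, ?_, ?_⟩
  · refine next_ae h (measurable_fst measurableSet_Icc) (Eventually.of_forall fun p => ?_)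
    exact ⟨measureReal_nonneg, measureReal_le_one⟩
  · refine next_ae h (measurable_snd measurableSet_Icc) (Eventually.of_forall fun p => ?_)
    exact ⟨measureReal_nonneg, measureReal_le_one⟩
  · intro t
    have hm : MeasurableSet {p : ℝ × ℝ | p.1 = t} := measurable_fst (measurableSet_singleton t)
    rw [next, Measure.map_apply (map_meas h) hm]
    exact tilt_ac ν (G_level ν measurable_fst h.at1 h.box1 t)
  · intro t
    have hm : MeasurableSet {p : ℝ × ℝ | p.2 = t} := measurable_snd (measurableSet_singleton t)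
    rw [next, Measure.map_apply (map_meas h) hm]
    exact tilt_ac ν (G_level ν measurable_snd h.at2 h.box2 t)

theorem next_cdf {ν : Measure (ℝ × ℝ)} (h : Good ν) (x : ℝ × ℝ) :
    (next ν).real (Iic x.1 ×ˢ Iic x.2) = lorenz ν x := by
  have := h.prob
  have hA : MeasurableSet ((fun p : ℝ × ℝ => (F1 ν p.1, F2 ν p.2)) ⁻¹' (Iic x.1 ×ˢ Iic x.2)) :=
    map_meas h (measurableSet_Iic.prod measurableSet_Iic)
  rw [next, map_measureReal_apply (map_meas h) (measurableSet_Iic.prod measurableSet_Iic),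
    tilt_real h hA, lorenz]
  congr 1
  apply setIntegral_congr_set
  have e1 := ginv_iff ν measurable_fst h.at1 h.box1 x.1
  have e2 := ginv_iff ν measurable_snd h.at2 h.box2 x.2
  rw [← F1_eq] at e1
  rw [← F2_eq] at e2
  filter_upwards [e1, e2] with p h1 h2
  refine propext ?_
  show (F1 ν p.1 ≤ x.1 ∧ F2 ν p.2 ≤ x.2) ↔
    ((p.1 : EReal) ≤ ginv (F1 ν) x.1 ∧ (p.2 : EReal) ≤ ginv (F2 ν) x.2)
  rw [h1, h2]

theorem level_iff (ν : Measure (ℝ × ℝ)) [IsFiniteMeasure ν] {g : ℝ × ℝ → ℝ} (hg : Measurable g)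
    (h0 : ∀ t, ν {p | g p = t} = 0) (h1 : ∀ᵐ p ∂ν, g p ∈ Icc (0 : ℝ) 1) (a : ℝ) :
    ∀ᵐ p ∂ν, (G ν g (g p) ≤ G ν g a ↔ g p ≤ a) := by
  have hne : ∀ᵐ p ∂ν, G ν g (g p) ≠ G ν g a := by
    rw [ae_iff]
    simpa using G_level ν hg h0 h1 (G ν g a)
  filter_upwards [hne] with p hp
  constructor
  · intro h
    by_contra h2
    rw [not_le] at h2
    exact hp (le_antisymm h (G_mono ν g h2.le))
  · intro h
    exact G_mono ν g h

/-- The block structure: the law lives on the union of the squares `(c i, c (i+1)]²`, and the mass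
beyond the `i`-th square is at least the mass of the `i`-th square. -/
structure Inv (ν : Measure (ℝ × ℝ)) (c : ℕ → ℝ) : Prop where
  good : Good ν
  c0 : c 0 = 0
  mono : Monotone c
  lim : Tendsto c atTop (𝓝 1)
  blk : ∀ i, ∀ᵐ p ∂ν, (p.1 ≤ c i ↔ p.2 ≤ c i)
  tail : ∀ i, ν.real {p | c i < p.1 ∧ p.1 ≤ c (i + 1)} ≤ ν.real {p | c (i + 1) < p.1}

theorem Inv.nonneg {ν : Measure (ℝ × ℝ)} {c : ℕ → ℝ} (h : Inv ν c) (i : ℕ) : 0 ≤ c i := by
  rw [← h.c0]
  exact h.mono (Nat.zero_le i)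

theorem real_gt {ν : Measure (ℝ × ℝ)} (h : Good ν) (a : ℝ) :
    ν.real {p | a < p.1} = 1 - F1 ν a := by
  have := h.prob
  have hm : MeasurableSet {p : ℝ × ℝ | p.1 ≤ a} := measurable_fst measurableSet_Iic
  have h2 := probReal_compl_eq_one_sub (μ := ν) hm
  rw [F1, ← h2]
  congr 1
  ext p
  simp

theorem Inv.ratio {ν : Measure (ℝ × ℝ)} {c : ℕ → ℝ} (h : Inv ν c) (i : ℕ) :
    1 - F1 ν (c i) ≤ 2 * (1 - F1 ν (c (i + 1))) := by
  have := h.good.prob
  have h1 := h.tail i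
  rw [real_gt h.good, G_sub ν measurable_fst (h.mono (Nat.le_succ i)), ← F1_eq] at h1
  linarith

theorem F12 {ν : Measure (ℝ × ℝ)} {c : ℕ → ℝ} (h : Inv ν c) (i : ℕ) :
    F1 ν (c i) = F2 ν (c i) := by
  rw [F1, F2]
  apply measureReal_congr
  filter_upwards [h.blk i] with p hp
  exact propext hp

theorem next_inv {ν : Measure (ℝ × ℝ)} {c : ℕ → ℝ} (h : Inv ν c) :
    Inv (next ν) (fun i => F1 ν (c i)) := by
  have := h.good.prob
  have := tilt_prob h.good
  have hng := next_good h.good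
  have l1 := fun i => level_iff ν measurable_fst h.good.at1 h.good.box1 (c i)
  have l2 := fun i => level_iff ν measurable_snd h.good.at2 h.good.box2 (c i)
  rw [← F1_eq] at l1
  rw [← F2_eq] at l2
  refine ⟨hng, ?_, ?_, ?_, ?_, ?_⟩
  · show F1 ν (c 0) = 0
    rw [h.c0, F1, measureReal_eq_zero_iff]
    have h3 := ae_iff.1 h.good.pos1
    simpa using h3
  · intro i j hij
    exact G_mono ν Prod.fst (h.mono hij)
  · have h3 : F1 ν 1 = 1 := by
      have h4 : ∀ᵐ p ∂ν, p.1 ≤ 1 := h.good.box1.mono fun p hp => hp.2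
      have h5 : ν {p | p.1 ≤ 1} = 1 := by
        rw [← measure_univ (μ := ν)]
        exact measure_eq_measure_of_null_sdiff (subset_univ _) (by
          have h6 := ae_iff.1 h4
          refine measure_mono_null (fun p hp => ?_) h6
          exact hp.2)
      rw [F1, Measure.real, h5]
      rfl
    have h6 := ((F1_cont h.good).tendsto 1).comp h.lim
    rw [h3] at h6
    exact h6
  · intro i
    have hm1 : MeasurableSet {p : ℝ × ℝ | p.1 ≤ F1 ν (c i)} := measurable_fst measurableSet_Iic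
    have hm2 : MeasurableSet {p : ℝ × ℝ | p.2 ≤ F1 ν (c i)} := measurable_snd measurableSet_Iic
    refine next_ae h.good (hm1.iff hm2) ?_
    filter_upwards [l1 i, l2 i, h.blk i] with p h3 h4 h5
    show F1 ν p.1 ≤ F1 ν (c i) ↔ F2 ν p.2 ≤ F1 ν (c i)
    rw [h3, F12 h i, h4, h5]
  · intro i
    set d := c (i + 1) with hd
    have hd0 : 0 ≤ d := h.nonneg (i + 1)
    have hmA : MeasurableSet {p : ℝ × ℝ | c i < p.1 ∧ p.1 ≤ d} := measurable_fst measurableSet_Ioc
    have hmB : MeasurableSet {p : ℝ × ℝ | d < p.1} := measurable_fst measurableSet_Ioi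
    have hmA' : MeasurableSet {p : ℝ × ℝ | F1 ν (c i) < p.1 ∧ p.1 ≤ F1 ν d} :=
      measurable_fst measurableSet_Ioc
    have hmB' : MeasurableSet {p : ℝ × ℝ | F1 ν d < p.1} := measurable_fst measurableSet_Ioi
    have eA : (next ν).real {p | F1 ν (c i) < p.1 ∧ p.1 ≤ F1 ν d}
        = (tilt ν).real {p | c i < p.1 ∧ p.1 ≤ d} := by
      rw [next, map_measureReal_apply (map_meas h.good) hmA']
      apply measureReal_congr
      filter_upwards [(tilt_ac ν).ae_le (l1 i), (tilt_ac ν).ae_le (l1 (i + 1))] with p h3 h4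
      refine propext ?_
      show (F1 ν (c i) < F1 ν p.1 ∧ F1 ν p.1 ≤ F1 ν d) ↔ (c i < p.1 ∧ p.1 ≤ d)
      rw [h4, ← not_le, h3, not_le]
    have eB : (next ν).real {p | F1 ν d < p.1} = (tilt ν).real {p | d < p.1} := by
      rw [next, map_measureReal_apply (map_meas h.good) hmB']
      apply measureReal_congr
      filter_upwards [(tilt_ac ν).ae_le (l1 (i + 1))] with p h4
      refine propext ?_
      show (F1 ν d < F1 ν p.1) ↔ (d < p.1)
      rw [← not_le, h4, not_le]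
    show (next ν).real {p | F1 ν (c i) < p.1 ∧ p.1 ≤ F1 ν d} ≤ (next ν).real {p | F1 ν d < p.1}
    rw [eA, eB, tilt_real h.good hmA, tilt_real h.good hmB]
    refine div_le_div_of_nonneg_right ?_ h.good.mass.le
    have i1 : ∫ p in {p : ℝ × ℝ | c i < p.1 ∧ p.1 ≤ d}, p.1 * p.2 ∂ν
        ≤ ∫ p in {p : ℝ × ℝ | c i < p.1 ∧ p.1 ≤ d}, d ^ 2 ∂ν := by
      refine setIntegral_mono_on_ae h.good.int.integrableOn (integrable_const _).integrableOn hmA ?_
      filter_upwards [h.blk (i + 1), h.good.box1, h.good.box2] with p h3 h4 h5 h6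
      have h7 : p.2 ≤ d := h3.1 h6.2
      rw [pow_two]
      exact mul_le_mul h6.2 h7 h5.1 hd0
    have i2 : ∫ p in {p : ℝ × ℝ | d < p.1}, d ^ 2 ∂ν
        ≤ ∫ p in {p : ℝ × ℝ | d < p.1}, p.1 * p.2 ∂ν := by
      refine setIntegral_mono_on_ae (integrable_const _).integrableOn h.good.int.integrableOn hmB ?_
      filter_upwards [h.blk (i + 1), h.good.box1, h.good.box2] with p h3 h4 h5 h6
      have h6' : d < p.1 := h6
      have h7 : d < p.2 := by
        by_contra h8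
        exact absurd (h3.2 (not_lt.1 h8)) (not_le.2 h6')
      rw [pow_two]
      exact mul_le_mul h6'.le h7.le hd0 h4.1
    have i3 := h.tail i
    simp only [setIntegral_const, smul_eq_mul] at i1 i2
    have i4 : ν.real {p | c i < p.1 ∧ p.1 ≤ d} * d ^ 2 ≤ ν.real {p | d < p.1} * d ^ 2 :=
      mul_le_mul_of_nonneg_right i3 (sq_nonneg d)
    linarith

/-- If the block structure has ratio at most two, the square containing `1/2` ends before `3/4`. -/
theorem cdf_const {ν : Measure (ℝ × ℝ)} {c : ℕ → ℝ} (h : Inv ν c)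
    (hr : ∀ i, 1 - c i ≤ 2 * (1 - c (i + 1))) :
    ν.real (Iic (1 / 2) ×ˢ Iic 1) = ν.real (Iic (1 / 2) ×ˢ Iic (3 / 4)) := by
  have hex : ∃ i, 1 / 2 < c i := by
    have := h.lim.eventually (lt_mem_nhds (show (1 / 2 : ℝ) < 1 by norm_num))
    exact this.exists
  classical
  have h1 := Nat.find_spec hex
  have h2 : Nat.find hex ≠ 0 := by
    intro h0
    rw [h0, h.c0] at h1
    norm_num at h1
  obtain ⟨k, hk⟩ := Nat.exists_eq_succ_of_ne_zero h2
  have h3 : c k ≤ 1 / 2 := by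
    by_contra h4
    exact Nat.find_min hex (m := k) (by omega) (not_le.1 h4)
  rw [hk, Nat.succ_eq_add_one] at h1
  have h5 := hr k
  have h6 : c (k + 1) ≤ 3 / 4 := by linarith
  apply measureReal_congr
  filter_upwards [h.blk (k + 1)] with p hp
  refine propext ?_
  show (p.1 ≤ 1 / 2 ∧ p.2 ≤ 1) ↔ (p.1 ≤ 1 / 2 ∧ p.2 ≤ 3 / 4)
  constructor
  · rintro ⟨h7, -⟩
    exact ⟨h7, (hp.1 (h7.trans h1.le)).trans h6⟩
  · rintro ⟨h7, h8⟩
    exact ⟨h7, h8.trans (by norm_num)⟩

/-! ## The starting law -/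

/-- break points `1 - 2^{-i}` -/
noncomputable def b (i : ℕ) : ℝ := 1 - (1 / 2) ^ i

/-- the squares -/
def sq (i : ℕ) : Set (ℝ × ℝ) := Ioc (b i) (b (i + 1)) ×ˢ Ioc (b i) (b (i + 1))

/-- The starting law: uniform on each square `(1-2^{-i}, 1-2^{-i-1}]²`, which has mass `2^{-i-1}`. -/
noncomputable def nu0 : Measure (ℝ × ℝ) :=
  Measure.sum (fun i => (2 : ENNReal) ^ (i + 1) • (volume : Measure (ℝ × ℝ)).restrict (sq i))

theorem b_mono : Monotone b := by
  intro i j hij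
  have : (1 / 2 : ℝ) ^ j ≤ (1 / 2) ^ i := pow_le_pow_of_le_one (by norm_num) (by norm_num) hij
  simp only [b]
  linarith

theorem b_strict : StrictMono b := by
  refine strictMono_nat_of_lt_succ fun i => ?_
  have : (0 : ℝ) < (1 / 2) ^ i := by positivity
  simp only [b, pow_succ]
  linarith

theorem sq_meas (i : ℕ) : MeasurableSet (sq i) := measurableSet_Ioc.prod measurableSet_Ioc

theorem half_eq : ENNReal.ofReal (1 / 2) = 2⁻¹ := by
  rw [one_div, ENNReal.ofReal_inv_of_pos two_pos]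
  norm_num

theorem sq_mass (i : ℕ) : (2 : ENNReal) ^ (i + 1) * volume (sq i) = (2⁻¹) ^ (i + 1) := by
  rw [sq, Measure.volume_eq_prod, Measure.prod_prod, Real.volume_Ioc]
  have h1 : b (i + 1) - b i = (1 / 2) ^ (i + 1) := by
    simp only [b, pow_succ]
    ring
  rw [h1, ENNReal.ofReal_pow (by norm_num), half_eq, ← mul_assoc, ← mul_pow,
    ENNReal.mul_inv_cancel two_ne_zero ENNReal.ofNat_ne_top, one_pow, one_mul]

theorem nu0_apply {A : Set (ℝ × ℝ)} (hA : MeasurableSet A) :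
    nu0 A = ∑' j, (2 : ENNReal) ^ (j + 1) * volume (A ∩ sq j) := by
  rw [nu0, Measure.sum_apply _ hA]
  congr 1
  funext j
  rw [Measure.smul_apply, Measure.restrict_apply hA, smul_eq_mul]

theorem geom : ∑' k : ℕ, (2⁻¹ : ENNReal) ^ (k + 1) = 1 := by
  simp only [pow_succ]
  rw [ENNReal.tsum_mul_right, ENNReal.tsum_geometric, ENNReal.one_sub_inv_two, inv_inv,
    ENNReal.mul_inv_cancel two_ne_zero ENNReal.ofNat_ne_top]

theorem nu0_prob : IsProbabilityMeasure nu0 := by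
  refine ⟨?_⟩
  rw [nu0_apply MeasurableSet.univ]
  simp only [univ_inter, sq_mass]
  exact geom

theorem nu0_ac : nu0 ≪ (volume : Measure (ℝ × ℝ)) := by
  refine Measure.absolutelyContinuous_sum_left fun i => ?_
  exact (Measure.absolutelyContinuous_of_le Measure.restrict_le_self).smul_left _

theorem nu0_ae {P : ℝ × ℝ → Prop} (h : ∀ i, ∀ p ∈ sq i, P p) : ∀ᵐ p ∂nu0, P p := by
  rw [nu0, Measure.ae_sum_iff]
  intro i
  refine Measure.ae_smul_measure ?_ _
  exact (ae_restrict_iff' (sq_meas i)).2 (Eventually.of_forall (h i))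

theorem b_pos (i : ℕ) : 0 ≤ b i := by
  have : (1 / 2 : ℝ) ^ i ≤ 1 := pow_le_one₀ (by norm_num) (by norm_num)
  simp only [b]
  linarith

theorem b_le (i : ℕ) : b i ≤ 1 := by
  have : (0 : ℝ) < (1 / 2) ^ i := by positivity
  simp only [b]
  linarith

theorem nu0_good : Good nu0 := by
  refine ⟨nu0_prob, ?_, ?_, ?_, ?_⟩
  · refine nu0_ae fun i p hp => ?_
    exact ⟨(b_pos i).trans hp.1.1.le, hp.1.2.trans (b_le _)⟩
  · refine nu0_ae fun i p hp => ?_
    exact ⟨(b_pos i).trans hp.2.1.le, hp.2.2.trans (b_le _)⟩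
  · intro t
    apply nu0_ac
    have : {p : ℝ × ℝ | p.1 = t} = {t} ×ˢ univ := by
      ext p
      simp
    rw [this, Measure.volume_eq_prod, Measure.prod_prod]
    simp
  · intro t
    apply nu0_ac
    have : {p : ℝ × ℝ | p.2 = t} = univ ×ˢ {t} := by
      ext p
      simp
    rw [this, Measure.volume_eq_prod, Measure.prod_prod]
    simp

theorem mem_iff {i j : ℕ} {x : ℝ} (hx : x ∈ Ioc (b j) (b (j + 1))) : x ≤ b i ↔ j + 1 ≤ i := by
  constructor
  · intro h
    have : b j < b i := lt_of_lt_of_le hx.1 h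
    have := b_strict.lt_iff_lt.1 this
    omega
  · intro h
    exact hx.2.trans (b_mono h)

theorem nu0_inv : Inv nu0 b := by
  have := nu0_prob
  refine ⟨nu0_good, ?_, b_mono, ?_, ?_, ?_⟩
  · simp [b]
  · have h1 : Tendsto (fun i : ℕ => (1 / 2 : ℝ) ^ i) atTop (𝓝 0) :=
      tendsto_pow_atTop_nhds_zero_of_lt_one (by norm_num) (by norm_num)
    have h2 := h1.const_sub 1
    rw [sub_zero] at h2
    exact h2
  · intro i
    refine nu0_ae fun j p hp => ?_
    rw [mem_iff hp.1, mem_iff hp.2]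
  · intro i
    have hmA : MeasurableSet {p : ℝ × ℝ | b i < p.1 ∧ p.1 ≤ b (i + 1)} :=
      measurable_fst measurableSet_Ioc
    have hmB : MeasurableSet {p : ℝ × ℝ | b (i + 1) < p.1} := measurable_fst measurableSet_Ioi
    have hA : nu0 {p : ℝ × ℝ | b i < p.1 ∧ p.1 ≤ b (i + 1)} ≤ (2⁻¹) ^ (i + 1) := by
      rw [nu0_apply hmA, tsum_eq_single i]
      · rw [← sq_mass i]
        gcongr
        exact inter_subset_right
      · intro j hj
        have : {p : ℝ × ℝ | b i < p.1 ∧ p.1 ≤ b (i + 1)} ∩ sq j = ∅ := by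
          rw [Set.eq_empty_iff_forall_notMem]
          rintro p ⟨⟨h1, h2⟩, h3⟩
          rw [mem_iff h3.1] at h2
          rw [← not_le, mem_iff h3.1] at h1
          omega
        rw [this, measure_empty, mul_zero]
    have hB : (2⁻¹) ^ (i + 1) ≤ nu0 {p : ℝ × ℝ | b (i + 1) < p.1} := by
      rw [nu0_apply hmB]
      have hinj : Function.Injective (fun k : ℕ => k + (i + 1)) := add_left_injective _
      refine le_trans ?_ (ENNReal.tsum_comp_le_tsum_of_injective hinj _)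
      have h1 : ∀ k : ℕ, (2 : ENNReal) ^ (k + (i + 1) + 1)
          * volume ({p : ℝ × ℝ | b (i + 1) < p.1} ∩ sq (k + (i + 1)))
          = (2⁻¹) ^ (k + 1) * (2⁻¹) ^ (i + 1) := by
        intro k
        have h2 : {p : ℝ × ℝ | b (i + 1) < p.1} ∩ sq (k + (i + 1)) = sq (k + (i + 1)) := by
          rw [inter_eq_right]
          intro p hp
          show b (i + 1) < p.1
          rw [← not_le, mem_iff hp.1]
          omega
        rw [h2, sq_mass, ← pow_add]
        congr 1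
        ring
      simp only [h1]
      rw [ENNReal.tsum_mul_right, geom, one_mul]
    exact ENNReal.toReal_mono (measure_ne_top _ _) (hA.trans hB)

/-- The laws of the iterates: `lawseq (n+1)` has distribution function `L^n`. -/
noncomputable def lawseq (n : ℕ) : Measure (ℝ × ℝ) := next^[n] nu0

theorem lawseq_succ (n : ℕ) : lawseq (n + 1) = next (lawseq n) := by
  rw [lawseq, Function.iterate_succ_apply', lawseq]

theorem lawseq_inv (n : ℕ) : ∃ c, Inv (lawseq n) c := by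
  induction n with
  | zero => exact ⟨b, nu0_inv⟩
  | succ n ih =>
    obtain ⟨c, hc⟩ := ih
    rw [lawseq_succ]
    exact ⟨_, next_inv hc⟩

theorem lawseq_cdf (n : ℕ) (x : ℝ × ℝ) :
    (lawseq (n + 1)).real (Iic x.1 ×ˢ Iic x.2) = lorenz (lawseq n) x := by
  obtain ⟨c, hc⟩ := lawseq_inv n
  rw [lawseq_succ]
  exact next_cdf hc.good x

theorem lawseq_const (n : ℕ) : lorenz (lawseq n) (1 / 2, 1) = lorenz (lawseq n) (1 / 2, 3 / 4) := by
  obtain ⟨c, hc⟩ := lawseq_inv n
  rw [← lawseq_cdf, ← lawseq_cdf, lawseq_succ]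
  exact cdf_const (next_inv hc) hc.ratio

/-- **Disproof.** There is a law `ν 0` on the unit square with a density, all of whose iterated
bivariate Lorenz curves `L^n = lorenz (ν n)` satisfy `L^n(1/2, 1) = L^n(1/2, 3/4)`; consequently the
conclusions (i) and (ii) do not both hold. -/
theorem result : ∃ ν : ℕ → Measure (ℝ × ℝ),
    (∀ n, IsProbabilityMeasure (ν n)) ∧
    ν 0 ≪ (volume : Measure (ℝ × ℝ)) ∧
    (∀ᵐ p ∂(ν 0), 0 ≤ p.1 ∧ 0 ≤ p.2) ∧
    Integrable (fun p : ℝ × ℝ => p.1) (ν 0) ∧ 0 < ∫ p, p.1 ∂(ν 0) ∧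
    Integrable (fun p : ℝ × ℝ => p.2) (ν 0) ∧ 0 < ∫ p, p.2 ∂(ν 0) ∧
    Integrable (fun p : ℝ × ℝ => p.1 * p.2) (ν 0) ∧ 0 < ∫ p, p.1 * p.2 ∂(ν 0) ∧
    (∀ n, ∀ᵐ p ∂(ν n), p.1 ∈ Icc (0 : ℝ) 1 ∧ p.2 ∈ Icc (0 : ℝ) 1) ∧
    (∀ n, ∀ x : ℝ × ℝ, x.1 ∈ Icc (0 : ℝ) 1 → x.2 ∈ Icc (0 : ℝ) 1 →
      (ν (n + 1)).real {u | u.1 ≤ x.1 ∧ u.2 ≤ x.2} = lorenz (ν n) x) ∧
    (∀ n, lorenz (ν n) (1 / 2, 1) = lorenz (ν n) (1 / 2, 3 / 4)) ∧
    ¬ (TendstoUniformlyOn (fun (n : ℕ) (x : ℝ) => lorenz (ν n) (x, 1))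
          (fun x => x ^ ((1 + Real.sqrt 5) / 2)) atTop (Icc 0 1) ∧
       TendstoUniformlyOn (fun (n : ℕ) (x : ℝ) => lorenz (ν n) (1, x))
          (fun x => x ^ ((1 + Real.sqrt 5) / 2)) atTop (Icc 0 1) ∧
       TendstoUniformlyOn
          (fun (n : ℕ) (x : ℝ × ℝ) => lorenz (ν n) x - lorenz (ν n) (x.1, 1) * lorenz (ν n) (1, x.2))
          (fun _ => 0) atTop (Icc 0 1 ×ˢ Icc 0 1)) := by
  have hg : ∀ n, Good (lawseq n) := fun n => (lawseq_inv n).choose_spec.good
  refine ⟨lawseq, fun n => (hg n).prob, nu0_ac, ?_, (hg 0).int1, ?_, (hg 0).int2, ?_, (hg 0).int,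
    (hg 0).mass, ?_, fun n x _ _ => ?_, lawseq_const, ?_⟩
  · filter_upwards [(hg 0).box1, (hg 0).box2] with p h1 h2
    exact ⟨h1.1, h2.1⟩
  · have := (hg 0).prob
    exact integral_pos_of_ae_pos (hg 0).int1 (hg 0).pos1
  · have := (hg 0).prob
    exact integral_pos_of_ae_pos (hg 0).int2 (hg 0).pos2
  · intro n
    filter_upwards [(hg n).box1, (hg n).box2] with p h1 h2
    exact ⟨h1, h2⟩
  · exact lawseq_cdf n x
  · rintro ⟨h1, h2, h3⟩
    set φ : ℝ := (1 + Real.sqrt 5) / 2 with hφ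
    have hφ0 : 0 < φ := by positivity
    have t1 := h1.tendsto_at (x := 1 / 2) (by constructor <;> norm_num)
    have t2 := h2.tendsto_at (x := 3 / 4) (by constructor <;> norm_num)
    have t3 := h3.tendsto_at (x := ((1 / 2 : ℝ), (3 / 4 : ℝ)))
      (by refine ⟨⟨?_, ?_⟩, ⟨?_, ?_⟩⟩ <;> norm_num)
    simp only at t1 t2 t3
    have t4 : Tendsto (fun n : ℕ => lorenz (lawseq n) (1 / 2, 3 / 4)) atTop
        (𝓝 ((1 / 2 : ℝ) ^ φ)) := by
      refine t1.congr fun n => ?_
      exact lawseq_const n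
    have t5 := t4.sub (t1.mul t2)
    have t6 := tendsto_nhds_unique t5 t3
    have p1 : (0 : ℝ) < (1 / 2 : ℝ) ^ φ := Real.rpow_pos_of_pos (by norm_num) _
    have p2 : (3 / 4 : ℝ) ^ φ < 1 := Real.rpow_lt_one (by norm_num) (by norm_num) hφ0
    nlinarith

end Pool.Agent.Results.MP_357d86_pr.BlockDensity
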